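import Pool.Agent.N586.RT.Tn

/-!
# Bilinear sums whose coefficients are large only for some good indices

Project GN (helper782), task LINE (helper704). This follows `Pool.Agent.N586.RT.Tn`.
-/

set_option autoImplicit false

namespace Pool.Agent.N704.GN

open Finset Pool.Agent.Y957.VK Pool.Agent.Y70.VK Pool.Agent.Y288.VK Pool.Agent.N586.RT

/-- upper and lower bounds for the coefficients with index in `S` -/
structure Adm' (D : ℝ) (N : ℕ) (κ : ℝ) (r : ℕ) (S : Finset ℕ) (a : ℕ → ℝ) : Prop where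
  sub : ∀ j ∈ S, j ∈ Finset.Icc 1 r ∧ 2 * κ ≤ (j : ℝ) ∧ (j : ℝ) ≤ 3 * κ + 1 / 2
  card : κ / 16 ≤ (S.card : ℝ)
  up : ∀ j ∈ S, |a j| ≤ (N : ℝ) ^ κ / (6 * (N : ℝ) ^ j)
  low : ∀ j ∈ S, (N : ℝ) ^ κ / (D * (j : ℝ) ^ 2 * (2 * (N : ℝ)) ^ j) ≤ |a j|

theorem exp_mono {C C' : ℕ} (h : C ≤ C') {κ : ℝ} (hκ : 1 / 2 ≤ κ) :
    Real.exp (C * (1 + κ) ^ C) ≤ Real.exp (C' * (1 + κ) ^ C') := by
  apply Real.exp_le_exp.2
  have h1 : (C : ℝ) ≤ C' := by exact_mod_cast h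
  have h2 : (1 + κ) ^ C ≤ (1 + κ) ^ C' := pow_le_pow_right₀ (by linarith) h
  exact mul_le_mul h1 h2 (by positivity) (by positivity)

/-- the trivial bound -/
theorem twA (h : S_WB) : ∃ C : ℕ, ∀ (N j r s M : ℕ) (κ b : ℝ),
    2 ≤ N → 1 / 2 ≤ κ → r = ⌈5 * κ⌉₊ + 5 → s = 9 * r ^ 2 → M = ⌊(N : ℝ) ^ (2 / 5 : ℝ)⌋₊ →
    WJ s M j b ≤ (M : ℝ) ^ (2 * j) * Real.exp (C * (1 + κ) ^ C) := by
  obtain ⟨C, hC⟩ : ∃ C : ℕ, C = 1000000 := ⟨_, rfl⟩
  have hCr : (1000000 : ℝ) ≤ C := by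
    rw [hC]
    norm_num
  have hC0 : C ≠ 0 := by omega
  clear hC
  refine ⟨C, ?_⟩
  intro N j r s M κ b hN hκ hr hs hM
  have hNr : (2 : ℝ) ≤ N := by exact_mod_cast hN
  have hN0 : (0 : ℝ) < N := by linarith
  have hN1 : (1 : ℝ) ≤ N := by linarith
  obtain ⟨k, hk⟩ : ∃ k : ℝ, k = 1 + κ := ⟨_, rfl⟩
  rw [← hk]
  have hk1 : 1 ≤ k := by rw [hk]; linarith
  have hrk : (r : ℝ) ≤ 6 * k := by
    have h1 := Nat.ceil_lt_add_one (a := 5 * κ) (by linarith)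
    rw [hr]
    push_cast
    rw [hk]
    linarith
  have hr5 : 5 ≤ r := by omega
  have hr0 : (0 : ℝ) ≤ r := Nat.cast_nonneg r
  have hs1 : 1 ≤ s := by rw [hs]; nlinarith
  have hsr : (s : ℝ) = 9 * (r : ℝ) ^ 2 := by rw [hs]; push_cast; ring
  have hsk : (s : ℝ) ≤ 324 * k ^ 2 := by rw [hsr]; nlinarith
  have hs0 : (1 : ℝ) ≤ s := by exact_mod_cast hs1
  have hx1 : (1 : ℝ) ≤ (N : ℝ) ^ (2 / 5 : ℝ) := Real.one_le_rpow hN1 (by norm_num)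
  have hM1 : 1 ≤ M := by
    rw [hM]
    exact Nat.le_floor (by exact_mod_cast hx1)
  have hM0 : (1 : ℝ) ≤ M := by exact_mod_cast hM1
  obtain ⟨hW1, -⟩ := h s M j b hs1 hM1
  have hVcast : ((s * M ^ j : ℕ) : ℝ) = s * (M : ℝ) ^ j := by push_cast; rfl
  rw [hVcast] at hW1
  have hMj : (1 : ℝ) ≤ (M : ℝ) ^ j := one_le_pow₀ hM0
  have hV1 : 1 ≤ s * (M : ℝ) ^ j := one_le_mul_of_one_le_of_one_le hs0 hMj
  have h9 : 9 * (s : ℝ) ^ 2 ≤ Real.exp (C * k ^ C) := by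
    calc 9 * (s : ℝ) ^ 2 ≤ 9 * (324 * k ^ 2) ^ 2 := by gcongr
      _ = 944784 * k ^ 4 := by ring
      _ ≤ Real.exp ((944784 + (4 : ℕ)) * k) := mul_pow_le (by norm_num) hk1 4
      _ ≤ _ := exp_big hk1 hC0 (by push_cast; linarith)
  calc WJ s M j b ≤ (2 * (s * (M : ℝ) ^ j) + 1) ^ 2 := hW1
    _ ≤ (3 * (s * (M : ℝ) ^ j)) ^ 2 := pow_le_pow_left₀ (by linarith) (by linarith) 2
    _ = (M : ℝ) ^ (2 * j) * (9 * (s : ℝ) ^ 2) := by ring
    _ ≤ _ := mul_le_mul_of_nonneg_left h9 (by positivity)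

/-- the saving -/
theorem twB (h : S_WB) (D : ℝ) (hD : 3 ≤ D) : ∃ C : ℕ, ∀ (N j r s M : ℕ) (κ b : ℝ),
    2 ≤ N → 1 / 2 ≤ κ → r = ⌈5 * κ⌉₊ + 5 → s = 9 * r ^ 2 → M = ⌊(N : ℝ) ^ (2 / 5 : ℝ)⌋₊ →
    j ∈ Finset.Icc 1 r → |b| ≤ (N : ℝ) ^ κ / (6 * (N : ℝ) ^ j) →
    (N : ℝ) ^ κ / (D * (j : ℝ) ^ 2 * (2 * (N : ℝ)) ^ j) ≤ |b| →
    (s : ℝ) ≤ 3 * (N : ℝ) ^ (κ / 5) → 2 * κ ≤ j → (j : ℝ) ≤ 3 * κ + 1 / 2 →
      WJ s M j b ≤ (M : ℝ) ^ (2 * j) *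
        (Real.exp (C * (1 + κ) ^ C) * (1 + Real.log N) * (N : ℝ) ^ (-(κ / 5) : ℝ)) := by
  obtain ⟨C, hC⟩ := tw h D (by linarith)
  refine ⟨C, ?_⟩
  intro N j r s M κ b hN hκ hr hs hM hj hup hlow hsN h1 h2
  have hNr : (2 : ℝ) ≤ N := by exact_mod_cast hN
  have hN0 : (0 : ℝ) < N := by linarith
  set a : ℕ → ℝ := Function.update (fun i => (N : ℝ) ^ κ / (6 * (N : ℝ) ^ i)) j b with ha
  have haj : a j = b := by rw [ha, Function.update_self]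
  have hadm : Adm D N κ r a := by
    intro i hi
    by_cases hij : i = j
    · rw [hij, haj]
      exact ⟨hlow, hup⟩
    · have e : a i = (N : ℝ) ^ κ / (6 * (N : ℝ) ^ i) := by
        rw [ha, Function.update_of_ne hij]
      have hp : 0 < (N : ℝ) ^ κ / (6 * (N : ℝ) ^ i) := by positivity
      rw [e, abs_of_pos hp]
      refine ⟨?_, le_rfl⟩
      have hi1 : 1 ≤ i := (Finset.mem_Icc.1 hi).1
      have hi1' : (1 : ℝ) ≤ (i : ℝ) ^ 2 := by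
        have : (1 : ℝ) ≤ i := by exact_mod_cast hi1
        nlinarith
      have h2i : (2 : ℝ) ≤ 2 ^ i := by
        calc (2 : ℝ) = 2 ^ 1 := (pow_one _).symm
          _ ≤ 2 ^ i := pow_le_pow_right₀ (by norm_num) hi1
      apply div_le_div_of_nonneg_left (by positivity) (by positivity)
      rw [mul_pow]
      have hNi : (0 : ℝ) < (N : ℝ) ^ i := by positivity
      have h3 : (6 : ℝ) ≤ D * (i : ℝ) ^ 2 * 2 ^ i := by
        have h4 : (3 : ℝ) ≤ D * (i : ℝ) ^ 2 := by nlinarith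
        nlinarith
      calc 6 * (N : ℝ) ^ i ≤ (D * (i : ℝ) ^ 2 * 2 ^ i) * (N : ℝ) ^ i :=
            mul_le_mul_of_nonneg_right h3 hNi.le
        _ = _ := by ring
  have h3 := (hC N j r s M κ a hN hκ hr hs hM hj hadm).2 hsN h1 h2
  rw [haj] at h3
  exact h3

theorem log_one_add' {L ε : ℝ} (hL : 0 ≤ L) (hε0 : 0 < ε) : Real.log (1 + L) ≤ 1 / ε + ε * L := by
  have h3 : 1 + L ≤ (1 + 1 / ε) * (1 + ε * L) := by
    have h4 : (1 + 1 / ε) * (1 + ε * L) = 1 + L + (ε * L + 1 / ε) := by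
      field_simp
      ring
    rw [h4]
    have : 0 ≤ ε * L + 1 / ε := by positivity
    linarith
  have h4 : (0 : ℝ) < 1 + 1 / ε := by positivity
  have h5 : (0 : ℝ) < 1 + ε * L := by positivity
  calc Real.log (1 + L) ≤ Real.log ((1 + 1 / ε) * (1 + ε * L)) :=
        Real.log_le_log (by linarith) h3
    _ = Real.log (1 + 1 / ε) + Real.log (1 + ε * L) := Real.log_mul h4.ne' h5.ne'
    _ ≤ 1 / ε + ε * L := by
        have h6 := Real.log_le_sub_one_of_pos h4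
        have h7 := Real.log_le_sub_one_of_pos h5
        linarith

/-- the inequality between the logarithms -/
theorem final' {κ L l r η g A0 A1 y : ℝ} (hκ : 1 / 2 ≤ κ) (hL : 0 ≤ L) (hl : 0 ≤ l)
    (hlL : l ≤ 2 / 5 * L) (hr : 5 * κ + 5 ≤ r) (hr' : r ≤ 5 * κ + 6)
    (hη : η ≤ r * (r + 1) / 2 / 2937) (hg : κ / 16 ≤ g) (hg1 : 1 ≤ g) (hA0 : 0 ≤ A0) (hA1 : 0 ≤ A1)
    (H : 4 * (9 * r ^ 2) ^ 2 * y ≤ (8 * (9 * r ^ 2) ^ 2 - 4 * (9 * r ^ 2)) * l +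
      2 * (A1 + (2 * (r ^ 2 + r * (8 * r)) - r * (r + 1) / 2 + η) * l) +
      (r * (r + 1) * l + r * A0 + r * Real.log (1 + L) - g * (κ / 5 * L))) :
    y ≤ 2 * l + (2 * A1 + r * A0 + 70000) - 1 / 10 ^ 10 / (1 + κ) ^ 2 * L := by
  have hκ0 : 0 < κ := by linarith
  have hr0 : 0 < r := by linarith
  have hr17 : r ≤ 17 * κ := by linarith
  obtain ⟨G, hG⟩ : ∃ G : ℝ, G = g * (κ / 5) := ⟨_, rfl⟩
  have hG1 : κ ^ 2 / 80 ≤ G := by
    rw [hG]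
    calc κ ^ 2 / 80 = κ / 16 * (κ / 5) := by ring
      _ ≤ g * (κ / 5) := mul_le_mul_of_nonneg_right hg (by positivity)
  have hG2 : κ / 5 ≤ G := by
    rw [hG]
    calc κ / 5 = 1 * (κ / 5) := (one_mul _).symm
      _ ≤ g * (κ / 5) := mul_le_mul_of_nonneg_right hg1 (by positivity)
  have hG0 : 0 < G := lt_of_lt_of_le (by positivity) hG2
  have hGL : g * (κ / 5 * L) = G * L := by rw [hG]; ring
  rw [hGL] at H
  -- the logarithm
  have h1 : r * Real.log (1 + L) ≤ 70000 + G / 3 * L := by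
    have h2 := log_one_add' hL (show 0 < G / (3 * r) by positivity)
    have h3 : r * (1 / (G / (3 * r))) ≤ 70000 := by
      rw [one_div_div, mul_div_assoc', div_le_iff₀ hG0]
      have h4 : r * (3 * r) ≤ 3 * (289 * κ ^ 2) := by nlinarith
      nlinarith
    calc r * Real.log (1 + L) ≤ r * (1 / (G / (3 * r)) + G / (3 * r) * L) :=
          mul_le_mul_of_nonneg_left h2 hr0.le
      _ = r * (1 / (G / (3 * r))) + G / 3 * L := by
          rw [mul_add]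
          congr 1
          field_simp
      _ ≤ _ := by linarith
  -- the error of the mean value theorem
  have h2 : 2 * η * l ≤ G / 3 * L := by
    have hrr : r * (r + 1) ≤ (5 * κ + 6) * (5 * κ + 7) :=
      mul_le_mul hr' (by linarith) (by positivity) (by positivity)
    have h3 : 2 * η ≤ (5 * κ + 6) * (5 * κ + 7) / 2937 := by linarith
    have h4 : (5 * κ + 6) * (5 * κ + 7) / 2937 * (2 / 5) ≤ G / 3 := by
      rcases le_total κ 16 with h5 | h5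
      · have : (5 * κ + 6) * (5 * κ + 7) / 2937 * (2 / 5) ≤ κ / 5 / 3 := by
          nlinarith
        linarith
      · have : (5 * κ + 6) * (5 * κ + 7) / 2937 * (2 / 5) ≤ κ ^ 2 / 80 / 3 := by
          nlinarith
        linarith
    calc 2 * η * l ≤ (5 * κ + 6) * (5 * κ + 7) / 2937 * l := mul_le_mul_of_nonneg_right h3 hl
      _ ≤ (5 * κ + 6) * (5 * κ + 7) / 2937 * (2 / 5 * L) :=
          mul_le_mul_of_nonneg_left hlL (by positivity)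
      _ = (5 * κ + 6) * (5 * κ + 7) / 2937 * (2 / 5) * L := by ring
      _ ≤ G / 3 * L := mul_le_mul_of_nonneg_right h4 hL
  have hE : 0 ≤ 2 * A1 + r * A0 + 70000 := by positivity
  have h4 : 4 * (9 * r ^ 2) ^ 2 * y ≤ 8 * (9 * r ^ 2) ^ 2 * l + (2 * A1 + r * A0 + 70000) -
      G / 3 * L := by
    nlinarith
  have hs1 : (1 : ℝ) ≤ 4 * (9 * r ^ 2) ^ 2 := by
    have h5 : (1 : ℝ) ≤ r := by linarith
    have h6 : (1 : ℝ) ≤ r ^ 2 := one_le_pow₀ h5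
    nlinarith
  have h5 : 4 * (9 * r ^ 2) ^ 2 * (1 / 10 ^ 10 / (1 + κ) ^ 2) ≤ G / 3 := by
    refine le_trans ?_ (div_le_div_of_nonneg_right hG1 (by norm_num))
    have h6 : r ^ 2 ≤ 289 * κ ^ 2 := by
      calc r ^ 2 ≤ (17 * κ) ^ 2 := by gcongr
        _ = 289 * κ ^ 2 := by ring
    have h7 : (9 * r ^ 2) ^ 2 ≤ (2601 * κ ^ 2) ^ 2 := by
      apply pow_le_pow_left₀ (by positivity)
      linarith
    have h8 : κ ^ 2 ≤ (1 + κ) ^ 2 := by gcongr; linarith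
    have h9 : (0 : ℝ) < (1 + κ) ^ 2 := by positivity
    rw [div_div, ← mul_div_assoc, div_le_iff₀ (by positivity)]
    calc 4 * (9 * r ^ 2) ^ 2 * 1 ≤ 4 * (2601 * κ ^ 2) ^ 2 := by linarith
      _ = 27060804 * (κ ^ 2 * κ ^ 2) := by ring
      _ ≤ (1 / 240 * 10 ^ 10) * (κ ^ 2 * (1 + κ) ^ 2) := by
          have h10 : κ ^ 2 * κ ^ 2 ≤ κ ^ 2 * (1 + κ) ^ 2 := by gcongr
          have h11 : 0 ≤ κ ^ 2 * κ ^ 2 := by positivity
          nlinarith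
      _ = κ ^ 2 / 80 / 3 * (10 ^ 10 * (1 + κ) ^ 2) := by ring
  refine le_of_mul_le_mul_left ?_ (lt_of_lt_of_le one_pos hs1)
  have h6 : 4 * (9 * r ^ 2) ^ 2 * (1 / 10 ^ 10 / (1 + κ) ^ 2) * L ≤ G / 3 * L := by
    gcongr
  have h7 : (2 * A1 + r * A0 + 70000) ≤
      4 * (9 * r ^ 2) ^ 2 * (2 * A1 + r * A0 + 70000) := by
    nlinarith
  nlinarith

end Pool.Agent.N704.GN
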