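import Pool.Agent.N704.GN.BxA

/-!
# Vinogradov's bound for the sums over squares of Gaussian integers

Project GN (helper782), task BX (helper704).
-/

set_option autoImplicit false

namespace Pool.Agent.N704.GN

open Finset Pool.Agent.N782.GN

/-- a square is a union of diagonals -/
lemma diag (F : ℕ → ℕ → ℂ) (H : ℕ) : ∑ a ∈ range H, ∑ b ∈ range H, F a b =
    ∑ d ∈ range H, ∑ n ∈ range (H - d), F (n + d) n +
      ∑ d ∈ range H, ∑ n ∈ range (H - d), F n (n + d) - ∑ n ∈ range H, F n n := by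
  have key : ∀ G : ℕ → ℕ → ℂ, ∑ a ∈ range H, ∑ b ∈ range (a + 1), G a b =
      ∑ d ∈ range H, ∑ n ∈ range (H - d), G (n + d) n := by
    intro G
    have h1 := Finset.sum_range_diag_flip H (fun d n => G (n + d) n)
    rw [← h1]
    refine sum_congr rfl fun a _ => ?_
    rw [← Finset.sum_range_reflect]
    refine sum_congr rfl fun b hb => ?_
    rw [mem_range] at hb
    have e1 : a + 1 - 1 - b = a - b := by omega
    have e2 : a - b + b = a := by omega
    rw [e1, e2]
  have h2 := key F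
  have h3 := key (fun a b => F b a)
  have h4 : ∑ a ∈ range H, ∑ b ∈ range H, F a b =
      ∑ a ∈ range H, ∑ b ∈ range (a + 1), F a b + ∑ a ∈ range H, ∑ b ∈ range (a + 1), F b a -
        ∑ n ∈ range H, F n n := by
    clear key h2 h3
    induction H with
    | zero => simp
    | succ H ih =>
      rw [sum_range_succ, sum_range_succ (f := fun a => ∑ b ∈ range (a + 1), F a b),
        sum_range_succ (f := fun a => ∑ b ∈ range (a + 1), F b a),
        sum_range_succ (f := fun n => F n n)]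
      have e1 : ∑ a ∈ range H, ∑ b ∈ range (H + 1), F a b =
          ∑ a ∈ range H, ∑ b ∈ range H, F a b + ∑ a ∈ range H, F a H := by
        rw [← sum_add_distrib]
        exact sum_congr rfl fun a _ => sum_range_succ _ _
      rw [e1, ih, sum_range_succ (f := fun b => F b H)]
      ring
  rw [h4, h2, h3]

theorem bx (hL : S_LINE) : S_BX := by
  classical
  obtain ⟨C, hC⟩ := hL
  refine ⟨C + 3, ?_⟩
  intro N κ k τ z₀ H hN hκ hcc hz1 hz2 hH
  have hN2 : (2 : ℝ) ≤ N := by exact_mod_cast hN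
  have hN1 : (1 : ℝ) ≤ N := by linarith
  have hN0 : (0 : ℝ) < N := by linarith
  have hz0 : 0 < ‖z₀‖ := lt_of_lt_of_le (by positivity) hz1
  have hz₀ : z₀ ≠ 0 := norm_pos_iff.1 hz0
  obtain ⟨c, hc⟩ : ∃ c : ℂ, c = cc k τ := ⟨_, rfl⟩
  obtain ⟨ω, hω, S, hS, hSj⟩ := dir hκ c z₀
  obtain ⟨η, hη⟩ : ∃ η : ℝ, η = 1 / 10 ^ 12 / (1 + κ) ^ 2 := ⟨_, rfl⟩
  have hκ1 : 1 ≤ 1 + κ := by linarith
  have hH1 : 2 * (H : ℝ) ≤ N / (1000 * (κ + 1)) := by
    have : N / (1000 * (κ + 1)) = 2 * (N / (2000 * (κ + 1))) := by field_simp; ring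
    rw [this]
    linarith
  have hH2 : 2 * (H : ℝ) ≤ N / 1000 := by
    refine hH1.trans ?_
    apply div_le_div_of_nonneg_left hN0.le (by norm_num)
    nlinarith
  have hHN : H ≤ N := by
    have h1 : (0 : ℝ) ≤ H := Nat.cast_nonneg _
    have : (H : ℝ) ≤ N := by linarith
    exact_mod_cast this
  -- the points of the square
  have hpt : ∀ a b : ℕ, a < H → b < H → ∀ z : ℂ, z = z₀ + a + b * Complex.I →
      (144 / 100 * N ≤ ‖z‖ ∧ ‖z‖ ≤ 2 * N) ∧ κ / 16 ≤ ((Gj κ c ω z).card : ℝ) := by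
    intro a b ha hb z hz
    have hd : ‖z - z₀‖ ≤ 2 * H := by
      have e : z - z₀ = (a : ℂ) + b * Complex.I := by rw [hz]; ring
      rw [e]
      refine (norm_add_le _ _).trans ?_
      rw [norm_mul, Complex.norm_I, mul_one, Complex.norm_natCast, Complex.norm_natCast]
      have h1 : (a : ℝ) ≤ H := by exact_mod_cast ha.le
      have h2 : (b : ℝ) ≤ H := by exact_mod_cast hb.le
      linarith
    have h1 := norm_sub_norm_le z₀ z
    rw [norm_sub_rev] at h1
    have h2 := norm_sub_norm_le z z₀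
    refine ⟨⟨by linarith, by linarith⟩, hS.trans ?_⟩
    have hsub : S ⊆ Gj κ c ω z := by
      intro j hj
      obtain ⟨s1, s2, s3, s4, s5⟩ := hSj j hj
      unfold Gj
      rw [mem_filter, mem_Icc]
      refine ⟨⟨s1, s2⟩, s3, s4, stab hκ hz₀ (hd.trans (hH1.trans ?_)) s4 s5⟩
      exact div_le_div_of_nonneg_right (by linarith) (by positivity)
    exact_mod_cast card_le_card hsub
  obtain ⟨B, hB⟩ : ∃ B : ℝ, B = Real.exp (C * (1 + κ) ^ C) * (N : ℝ) ^ (1 - η) := ⟨_, rfl⟩
  have hB0 : 0 ≤ B := by rw [hB]; positivity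
  -- one line
  have hline : ∀ (ζ : ℂ) (J : ℕ), J ≤ H → ((1 : ℝ) ≤ ‖ω‖ ∧ ‖ω‖ ≤ 144 / 100) →
      (∀ n : ℕ, n < J → ∃ a b : ℕ, a < H ∧ b < H ∧ ζ + n * ω = z₀ + a + b * Complex.I) →
      ‖∑ n ∈ range J, Psi k τ (ζ + n * ω)‖ ≤ B := by
    intro ζ J hJ hω1 hpts
    rw [hB, hη]
    refine hC N κ k τ ω ζ J hN hκ hcc hω (hJ.trans hHN) fun n hn => ?_
    obtain ⟨a, b, ha, hb, hab⟩ := hpts n hn
    obtain ⟨⟨h1, h2⟩, h3⟩ := hpt a b ha hb _ hab
    rw [← hc]
    refine ⟨?_, ?_, h3⟩
    · calc (N : ℝ) * ‖ω‖ ≤ N * (144 / 100) := mul_le_mul_of_nonneg_left hω1.2 hN0.le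
        _ ≤ _ := by linarith
    · calc ‖ζ + n * ω‖ ≤ 2 * N := h2
        _ = 2 * N * 1 := by ring
        _ ≤ 2 * N * ‖ω‖ := mul_le_mul_of_nonneg_left hω1.1 (by positivity)
  have htot : ‖∑ a ∈ range H, ∑ b ∈ range H, Psi k τ (z₀ + a + b * Complex.I)‖ ≤ 3 * (N * B) := by
    have hHB : (H : ℝ) * B ≤ N * B := mul_le_mul_of_nonneg_right (by exact_mod_cast hHN) hB0
    have hNB : 0 ≤ (N : ℝ) * B := by positivity
    rcases hω with rfl | rfl | rfl
    · have h1 : (1 : ℝ) ≤ ‖(1 : ℂ)‖ ∧ ‖(1 : ℂ)‖ ≤ 144 / 100 := by rw [norm_one]; norm_num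
      rw [sum_comm]
      have h2 : ∀ b ∈ range H, ‖∑ a ∈ range H, Psi k τ (z₀ + a + b * Complex.I)‖ ≤ B := by
        intro b hb
        have h3 := hline (z₀ + b * Complex.I) H le_rfl h1
          (fun n hn => ⟨n, b, hn, mem_range.1 hb, by ring⟩)
        refine le_trans (le_of_eq ?_) h3
        congr 1
        refine sum_congr rfl fun a _ => ?_
        congr 1
        ring
      refine (norm_sum_le _ _).trans ((sum_le_sum h2).trans ?_)
      rw [sum_const, card_range, nsmul_eq_mul]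
      linarith
    · have h1 : (1 : ℝ) ≤ ‖Complex.I‖ ∧ ‖Complex.I‖ ≤ 144 / 100 := by
        rw [Complex.norm_I]; norm_num
      have h2 : ∀ a ∈ range H, ‖∑ b ∈ range H, Psi k τ (z₀ + a + b * Complex.I)‖ ≤ B := by
        intro a ha
        exact hline (z₀ + a) H le_rfl h1 (fun n hn => ⟨a, n, mem_range.1 ha, hn, rfl⟩)
      refine (norm_sum_le _ _).trans ((sum_le_sum h2).trans ?_)
      rw [sum_const, card_range, nsmul_eq_mul]
      linarith
    · have h1 : (1 : ℝ) ≤ ‖1 + Complex.I‖ ∧ ‖1 + Complex.I‖ ≤ 144 / 100 := by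
        have e : ‖1 + Complex.I‖ ^ 2 = 2 := by
          rw [← Complex.normSq_eq_norm_sq, Complex.normSq_apply]
          simp
          norm_num
        have h0 := norm_nonneg (1 + Complex.I)
        constructor
        · by_contra hcon
          push Not at hcon
          nlinarith
        · by_contra hcon
          push Not at hcon
          nlinarith
      rw [diag]
      have h2 : ∀ d ∈ range H, ‖∑ n ∈ range (H - d),
          Psi k τ (z₀ + ((n + d : ℕ) : ℂ) + n * Complex.I)‖ ≤ B := by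
        intro d hd
        rw [mem_range] at hd
        have h3 := hline (z₀ + d) (H - d) (by omega) h1
          (fun n hn => ⟨n + d, n, by omega, by omega, by push_cast; ring⟩)
        refine le_trans (le_of_eq ?_) h3
        congr 1
        refine sum_congr rfl fun a _ => ?_
        congr 1
        push_cast
        ring
      have h2' : ∀ d ∈ range H, ‖∑ n ∈ range (H - d),
          Psi k τ (z₀ + (n : ℂ) + ((n + d : ℕ) : ℂ) * Complex.I)‖ ≤ B := by
        intro d hd
        rw [mem_range] at hd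
        have h3 := hline (z₀ + d * Complex.I) (H - d) (by omega) h1
          (fun n hn => ⟨n, n + d, by omega, by omega, by push_cast; ring⟩)
        refine le_trans (le_of_eq ?_) h3
        congr 1
        refine sum_congr rfl fun a _ => ?_
        congr 1
        push_cast
        ring
      have h2'' : ‖∑ n ∈ range H, Psi k τ (z₀ + (n : ℂ) + (n : ℂ) * Complex.I)‖ ≤ B := by
        have h3 := hline z₀ H le_rfl h1 (fun n hn => ⟨n, n, hn, hn, by ring⟩)
        refine le_trans (le_of_eq ?_) h3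
        congr 1
        refine sum_congr rfl fun a _ => ?_
        congr 1
        ring
      refine (norm_sub_le _ _).trans ?_
      have h4 : B ≤ N * B := by nlinarith
      have s1 : ‖∑ d ∈ range H, ∑ n ∈ range (H - d),
          Psi k τ (z₀ + ((n + d : ℕ) : ℂ) + n * Complex.I)‖ ≤ H * B := by
        refine (norm_sum_le _ _).trans ((sum_le_sum h2).trans ?_)
        rw [sum_const, card_range, nsmul_eq_mul]
      have s2 : ‖∑ d ∈ range H, ∑ n ∈ range (H - d),
          Psi k τ (z₀ + (n : ℂ) + ((n + d : ℕ) : ℂ) * Complex.I)‖ ≤ H * B := by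
        refine (norm_sum_le _ _).trans ((sum_le_sum h2').trans ?_)
        rw [sum_const, card_range, nsmul_eq_mul]
      have s3 := norm_add_le (∑ d ∈ range H, ∑ n ∈ range (H - d),
          Psi k τ (z₀ + ((n + d : ℕ) : ℂ) + n * Complex.I)) (∑ d ∈ range H, ∑ n ∈ range (H - d),
          Psi k τ (z₀ + (n : ℂ) + ((n + d : ℕ) : ℂ) * Complex.I))
      linarith
  refine htot.trans ?_
  rw [hB, ← hη]
  have hpow : (N : ℝ) ^ (2 - η) = N * (N : ℝ) ^ (1 - η) := by
    rw [show (2 : ℝ) - η = 1 + (1 - η) by ring, Real.rpow_add hN0, Real.rpow_one]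
  rw [hpow]
  have hconst : 3 * Real.exp (C * (1 + κ) ^ C) ≤
      Real.exp (((C + 3 : ℕ) : ℝ) * (1 + κ) ^ (C + 3)) := by
    have h7 : (1 + κ) ^ C ≤ (1 + κ) ^ (C + 3) := pow_le_pow_right₀ hκ1 (by omega)
    have h8 : 1 ≤ (1 + κ) ^ (C + 3) := one_le_pow₀ hκ1
    have h9 : (3 : ℝ) + C * (1 + κ) ^ C ≤ ((C + 3 : ℕ) : ℝ) * (1 + κ) ^ (C + 3) := by
      push_cast
      have h10 := mul_le_mul_of_nonneg_left h7 (Nat.cast_nonneg C : (0 : ℝ) ≤ C)
      linarith
    refine le_trans ?_ (Real.exp_le_exp.2 h9)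
    rw [Real.exp_add]
    have h11 : (3 : ℝ) + 1 ≤ Real.exp 3 := Real.add_one_le_exp 3
    exact mul_le_mul_of_nonneg_right (by linarith) (Real.exp_pos _).le
  calc 3 * ((N : ℝ) * (Real.exp (C * (1 + κ) ^ C) * (N : ℝ) ^ (1 - η)))
      = (3 * Real.exp (C * (1 + κ) ^ C)) * (N * (N : ℝ) ^ (1 - η)) := by ring
    _ ≤ _ := mul_le_mul_of_nonneg_right hconst (by positivity)

end Pool.Agent.N704.GN
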