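import Pool.Agent.N782.GN.StmV

/-!
# The choice of the direction

Project GN (helper782), task BX (helper704).
-/

set_option autoImplicit false

namespace Pool.Agent.N704.GN

open Finset Pool.Agent.N782.GN

/-- the number of odd integers in the window -/
lemma card_odd {κ : ℝ} (hκ : 1 < κ) :
    κ / 8 ≤ ((Icc ⌈κ - 1 / 2⌉₊ ⌊3 / 2 * κ - 1 / 4⌋₊).card : ℝ) := by
  have h1 : (⌈κ - 1 / 2⌉₊ : ℝ) < κ - 1 / 2 + 1 := Nat.ceil_lt_add_one (by linarith)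
  have h2 : 3 / 2 * κ - 1 / 4 < (⌊3 / 2 * κ - 1 / 4⌋₊ : ℝ) + 1 := Nat.lt_floor_add_one _
  rw [Nat.card_Icc]
  have h3 : ⌈κ - 1 / 2⌉₊ ≤ ⌊3 / 2 * κ - 1 / 4⌋₊ := by
    rcases le_total κ 2 with h | h
    · rcases le_total κ (3 / 2) with h' | h'
      · have a1 : ⌈κ - 1 / 2⌉₊ ≤ 1 := Nat.ceil_le.2 (by push_cast; linarith)
        have a2 : 1 ≤ ⌊3 / 2 * κ - 1 / 4⌋₊ := Nat.le_floor (by push_cast; linarith)
        exact a1.trans a2
      · have a1 : ⌈κ - 1 / 2⌉₊ ≤ 2 := Nat.ceil_le.2 (by push_cast; linarith)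
        have a2 : 2 ≤ ⌊3 / 2 * κ - 1 / 4⌋₊ := Nat.le_floor (by push_cast; linarith)
        exact a1.trans a2
    · have h4 : (⌈κ - 1 / 2⌉₊ : ℝ) < (⌊3 / 2 * κ - 1 / 4⌋₊ : ℝ) + 1 := by linarith
      have h5 : ⌈κ - 1 / 2⌉₊ < ⌊3 / 2 * κ - 1 / 4⌋₊ + 1 := by exact_mod_cast h4
      omega
  have h6 : ((⌊3 / 2 * κ - 1 / 4⌋₊ + 1 - ⌈κ - 1 / 2⌉₊ : ℕ) : ℝ) =
      (⌊3 / 2 * κ - 1 / 4⌋₊ : ℝ) + 1 - ⌈κ - 1 / 2⌉₊ := by
    rw [Nat.cast_sub (by omega)]
    push_cast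
    ring
  have h7 : (1 : ℝ) ≤ ((⌊3 / 2 * κ - 1 / 4⌋₊ + 1 - ⌈κ - 1 / 2⌉₊ : ℕ) : ℝ) := by
    have : 1 ≤ ⌊3 / 2 * κ - 1 / 4⌋₊ + 1 - ⌈κ - 1 / 2⌉₊ := by omega
    exact_mod_cast this
  rcases le_total κ 2 with h | h
  · linarith
  · rw [h6]
    linarith

lemma re_or_im (A : ℂ) : 7 / 10 * ‖A‖ ≤ |A.re| ∨ 7 / 10 * ‖A‖ ≤ |A.im| := by
  by_contra hcon
  push Not at hcon
  obtain ⟨h1, h2⟩ := hcon
  have h3 : ‖A‖ ^ 2 = A.re ^ 2 + A.im ^ 2 := by
    rw [← Complex.normSq_eq_norm_sq, Complex.normSq_apply]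
    ring
  have h4 : A.re ^ 2 < (7 / 10 * ‖A‖) ^ 2 := by
    rw [← sq_abs A.re]
    exact pow_lt_pow_left₀ h1 (abs_nonneg _) two_ne_zero
  have h5 : A.im ^ 2 < (7 / 10 * ‖A‖) ^ 2 := by
    rw [← sq_abs A.im]
    exact pow_lt_pow_left₀ h2 (abs_nonneg _) two_ne_zero
  nlinarith [sq_nonneg ‖A‖]

lemma I_odd (m : ℕ) (A : ℂ) : |(Complex.I ^ (2 * m + 1) * A).re| = |A.im| := by
  have e : Complex.I ^ (2 * m + 1) = ((-1 : ℝ) ^ m : ℝ) * Complex.I := by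
    rw [pow_succ, pow_mul, Complex.I_sq]
    push_cast
    ring
  rw [e, mul_assoc, Complex.re_ofReal_mul, abs_mul, abs_pow, abs_neg, abs_one, one_pow, one_mul,
    Complex.I_mul_re, abs_neg]

/-- the direction -/
lemma dir {κ : ℝ} (hκ : 1 / 2 ≤ κ) (c z : ℂ) : ∃ ω : ℂ,
    (ω = 1 ∨ ω = Complex.I ∨ ω = 1 + Complex.I) ∧ ∃ S : Finset ℕ, κ / 16 ≤ (S.card : ℝ) ∧
    ∀ j ∈ S, 1 ≤ j ∧ j ≤ ⌈5 * κ⌉₊ + 5 ∧ 2 * κ ≤ (j : ℝ) ∧ (j : ℝ) ≤ 3 * κ + 1 / 2 ∧
      7 / 10 * ‖c * ω ^ j / z ^ j‖ ≤ |(c * ω ^ j / z ^ j).re| := by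
  classical
  have hup : ∀ j : ℕ, (j : ℝ) ≤ 3 * κ + 1 / 2 → j ≤ ⌈5 * κ⌉₊ + 5 := by
    intro j hj
    have h1 := Nat.le_ceil (5 * κ)
    have h2 : (j : ℝ) ≤ ((⌈5 * κ⌉₊ + 5 : ℕ) : ℝ) := by
      push_cast
      linarith
    exact_mod_cast h2
  rcases le_or_gt κ 1 with h | h
  · have hc : κ / 16 ≤ ((({2} : Finset ℕ)).card : ℝ) := by
      rw [card_singleton]
      push_cast
      linarith
    rcases re_or_im (c / z ^ 2) with h1 | h1
    · refine ⟨1, Or.inl rfl, {2}, hc, fun j hj => ?_⟩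
      rw [mem_singleton] at hj
      subst hj
      refine ⟨by norm_num, hup 2 (by push_cast; linarith), by push_cast; linarith,
        by push_cast; linarith, ?_⟩
      rw [one_pow, mul_one]
      exact h1
    · refine ⟨1 + Complex.I, Or.inr (Or.inr rfl), {2}, hc, fun j hj => ?_⟩
      rw [mem_singleton] at hj
      subst hj
      refine ⟨by norm_num, hup 2 (by push_cast; linarith), by push_cast; linarith,
        by push_cast; linarith, ?_⟩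
      have e : c * (1 + Complex.I) ^ 2 / z ^ 2 = ((2 : ℝ) : ℂ) * (Complex.I * (c / z ^ 2)) := by
        have : (1 + Complex.I) ^ 2 = 2 * Complex.I := by
          have := Complex.I_sq
          linear_combination this
        rw [this]
        push_cast
        ring
      rw [e, Complex.re_ofReal_mul, norm_mul, norm_mul, Complex.norm_I, one_mul, Complex.I_mul_re,
        Complex.norm_real, abs_mul, abs_neg, Real.norm_eq_abs, abs_of_pos (by norm_num : (0 : ℝ) < 2)]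
      linarith
  · set M := Icc ⌈κ - 1 / 2⌉₊ ⌊3 / 2 * κ - 1 / 4⌋₊ with hM
    have hMc := card_odd h
    rw [← hM] at hMc
    set M1 := M.filter fun m => 7 / 10 * ‖c / z ^ (2 * m + 1)‖ ≤ |(c / z ^ (2 * m + 1)).re| with hM1
    set M2 := M.filter fun m => 7 / 10 * ‖c / z ^ (2 * m + 1)‖ ≤ |(c / z ^ (2 * m + 1)).im| with hM2
    have hcover : M ⊆ M1 ∪ M2 := by
      intro m hm
      rw [mem_union, hM1, hM2, mem_filter, mem_filter]
      rcases re_or_im (c / z ^ (2 * m + 1)) with h1 | h1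
      · exact Or.inl ⟨hm, h1⟩
      · exact Or.inr ⟨hm, h1⟩
    have hcard : (M.card : ℝ) ≤ M1.card + M2.card := by
      exact_mod_cast (card_le_card hcover).trans (card_union_le _ _)
    have hinj : Function.Injective fun m : ℕ => 2 * m + 1 := fun a b hab => by
      simp only at hab
      omega
    have hwin : ∀ m ∈ M, 1 ≤ 2 * m + 1 ∧ 2 * m + 1 ≤ ⌈5 * κ⌉₊ + 5 ∧
        2 * κ ≤ ((2 * m + 1 : ℕ) : ℝ) ∧ ((2 * m + 1 : ℕ) : ℝ) ≤ 3 * κ + 1 / 2 := by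
      intro m hm
      rw [hM, mem_Icc] at hm
      have a1 : κ - 1 / 2 ≤ m := Nat.ceil_le.1 hm.1
      have a2 : (m : ℝ) ≤ 3 / 2 * κ - 1 / 4 := (Nat.le_floor_iff (by linarith)).1 hm.2
      have a3 : ((2 * m + 1 : ℕ) : ℝ) ≤ 3 * κ + 1 / 2 := by push_cast; linarith
      exact ⟨by omega, hup _ a3, by push_cast; linarith, a3⟩
    rcases le_or_gt (κ / 16) (M1.card : ℝ) with h1 | h1
    · refine ⟨1, Or.inl rfl, M1.image fun m => 2 * m + 1, ?_, fun j hj => ?_⟩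
      · rw [card_image_of_injective _ hinj]
        exact h1
      · rw [mem_image] at hj
        obtain ⟨m, hm, rfl⟩ := hj
        rw [hM1, mem_filter] at hm
        obtain ⟨w1, w2, w3, w4⟩ := hwin m hm.1
        refine ⟨w1, w2, w3, w4, ?_⟩
        rw [one_pow, mul_one]
        exact hm.2
    · refine ⟨Complex.I, Or.inr (Or.inl rfl), M2.image fun m => 2 * m + 1, ?_, fun j hj => ?_⟩
      · rw [card_image_of_injective _ hinj]
        linarith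
      · rw [mem_image] at hj
        obtain ⟨m, hm, rfl⟩ := hj
        rw [hM2, mem_filter] at hm
        obtain ⟨w1, w2, w3, w4⟩ := hwin m hm.1
        refine ⟨w1, w2, w3, w4, ?_⟩
        have e : c * Complex.I ^ (2 * m + 1) / z ^ (2 * m + 1) =
            Complex.I ^ (2 * m + 1) * (c / z ^ (2 * m + 1)) := by ring
        rw [e, I_odd, norm_mul, norm_pow, Complex.norm_I, one_pow, one_mul]
        exact hm.2

lemma pow_near (v : ℂ) (j : ℕ) : ‖v ^ j - 1‖ ≤ (1 + ‖v - 1‖) ^ j - 1 := by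
  induction j with
  | zero => simp
  | succ j ih =>
    have e : v ^ (j + 1) - 1 = (v ^ j - 1) * v + (v - 1) := by ring
    have hv : ‖v‖ ≤ 1 + ‖v - 1‖ := by
      have e2 : v = 1 + (v - 1) := by ring
      calc ‖v‖ = ‖1 + (v - 1)‖ := by rw [← e2]
        _ ≤ ‖(1 : ℂ)‖ + ‖v - 1‖ := norm_add_le _ _
        _ = 1 + ‖v - 1‖ := by rw [norm_one]
    have h0 : 0 ≤ (1 + ‖v - 1‖) ^ j - 1 := by
      have : 1 ≤ (1 + ‖v - 1‖) ^ j := one_le_pow₀ (by linarith [norm_nonneg (v - 1)])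
      linarith
    calc ‖v ^ (j + 1) - 1‖ = ‖(v ^ j - 1) * v + (v - 1)‖ := by rw [e]
      _ ≤ ‖v ^ j - 1‖ * ‖v‖ + ‖v - 1‖ := by
          refine (norm_add_le _ _).trans ?_
          rw [norm_mul]
      _ ≤ ((1 + ‖v - 1‖) ^ j - 1) * (1 + ‖v - 1‖) + ‖v - 1‖ := by
          have := mul_le_mul ih hv (norm_nonneg _) h0
          linarith
      _ = _ := by ring

/-- the direction is good in a neighbourhood -/
lemma stab {κ : ℝ} (hκ : 1 / 2 ≤ κ) {c ω z z₀ : ℂ} (hz₀ : z₀ ≠ 0)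
    (hd : ‖z - z₀‖ ≤ ‖z₀‖ / (1000 * (κ + 1))) {j : ℕ} (hj : (j : ℝ) ≤ 3 * κ + 1 / 2)
    (hg : 7 / 10 * ‖c * ω ^ j / z₀ ^ j‖ ≤ |(c * ω ^ j / z₀ ^ j).re|) :
    1 / 4 * ‖c * ω ^ j / z ^ j‖ ≤ |(c * ω ^ j / z ^ j).re| := by
  have hz0 : 0 < ‖z₀‖ := norm_pos_iff.2 hz₀
  have h1 : ‖z₀‖ / (1000 * (κ + 1)) ≤ ‖z₀‖ / 1000 := by
    apply div_le_div_of_nonneg_left hz0.le (by norm_num)
    nlinarith
  have hzn : 999 / 1000 * ‖z₀‖ ≤ ‖z‖ := by
    have := norm_sub_norm_le z₀ z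
    rw [norm_sub_rev] at this
    linarith
  have hzp : 0 < ‖z‖ := lt_of_lt_of_le (by positivity) hzn
  have hz : z ≠ 0 := norm_pos_iff.1 hzp
  obtain ⟨v, hv⟩ : ∃ v : ℂ, v = z₀ / z := ⟨_, rfl⟩
  have hv1 : ‖v - 1‖ ≤ 1 / (999 * (κ + 1)) := by
    have e : v - 1 = (z₀ - z) / z := by
      rw [hv]; field_simp
    rw [e, norm_div, norm_sub_rev]
    rw [div_le_div_iff₀ hzp (by positivity)]
    have h2 : ‖z - z₀‖ * (1000 * (κ + 1)) ≤ ‖z₀‖ := by
      rwa [le_div_iff₀ (by positivity)] at hd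
    have h3 : 0 ≤ ‖z - z₀‖ := norm_nonneg _
    have h4 : 0 ≤ ‖z - z₀‖ * (κ + 1) := by positivity
    nlinarith
  have hvj : ‖v ^ j - 1‖ ≤ 1 / 10 := by
    refine (pow_near v j).trans ?_
    have h2 : (1 + ‖v - 1‖) ^ j ≤ Real.exp (3 / 999) := by
      calc (1 + ‖v - 1‖) ^ j ≤ (Real.exp (1 / (999 * (κ + 1)))) ^ j := by
            refine pow_le_pow_left₀ (by positivity) ?_ j
            have := Real.add_one_le_exp (1 / (999 * (κ + 1)))
            linarith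
        _ = Real.exp (j * (1 / (999 * (κ + 1)))) := by rw [← Real.exp_nat_mul]
        _ ≤ Real.exp (3 / 999) := by
            apply Real.exp_le_exp.2
            rw [mul_one_div, div_le_div_iff₀ (by positivity) (by norm_num)]
            nlinarith
    have h3 : Real.exp (3 / 999) ≤ 11 / 10 := by
      have h4 : Real.exp (3 / 999) ≤ 1 / (1 - 3 / 999) := by
        have h5 := Real.one_sub_le_exp_neg (3 / 999 : ℝ)
        rw [Real.exp_neg] at h5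
        rw [le_div_iff₀ (by norm_num)]
        have h6 := Real.exp_pos (3 / 999 : ℝ)
        calc Real.exp (3 / 999) * (1 - 3 / 999) ≤ Real.exp (3 / 999) * (Real.exp (3 / 999))⁻¹ :=
              mul_le_mul_of_nonneg_left h5 h6.le
          _ = 1 := mul_inv_cancel₀ h6.ne'
      refine h4.trans ?_
      norm_num
    linarith
  obtain ⟨A, hA⟩ : ∃ A : ℂ, A = c * ω ^ j / z₀ ^ j := ⟨_, rfl⟩
  have eA : c * ω ^ j / z ^ j = A * v ^ j := by
    rw [hA, hv, div_pow]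
    field_simp
  rw [eA]
  rw [← hA] at hg
  have h2 : ‖A * v ^ j‖ ≤ 11 / 10 * ‖A‖ := by
    have e : A * v ^ j = A + A * (v ^ j - 1) := by ring
    rw [e]
    refine (norm_add_le _ _).trans ?_
    rw [norm_mul]
    have := mul_le_mul_of_nonneg_left hvj (norm_nonneg A)
    linarith
  have h3 : |A.re| - 1 / 10 * ‖A‖ ≤ |(A * v ^ j).re| := by
    have e : (A * v ^ j).re = A.re + (A * (v ^ j - 1)).re := by
      rw [← Complex.add_re]
      congr 1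
      ring
    rw [e]
    have h4 : |(A * (v ^ j - 1)).re| ≤ 1 / 10 * ‖A‖ := by
      refine (Complex.abs_re_le_norm _).trans ?_
      rw [norm_mul]
      have := mul_le_mul_of_nonneg_left hvj (norm_nonneg A)
      linarith
    have h5 := abs_sub_abs_le_abs_sub A.re (-(A * (v ^ j - 1)).re)
    rw [abs_neg, sub_neg_eq_add] at h5
    linarith
  have h4 := norm_nonneg A
  linarith

end Pool.Agent.N704.GN
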