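import Pool.Agent.N704.GN.LineB
import Pool.Agent.N586.RT.Zs

/-!
# Sums with local phases whose coefficients are large only for some good indices

Project GN (helper782), task LINE (helper704). This follows `Pool.Agent.N586.RT.Zs`.
-/

set_option autoImplicit false

namespace Pool.Agent.N704.GN

open Finset Pool.Agent.Y957.VK Pool.Agent.N586.RT

open Classical in
/-- **sums with admissible local phases** -/
theorem zs' (D : ℝ) (hD : 3 ≤ D) : ∃ C : ℕ, ∀ (N N' : ℕ) (κ R : ℝ) (g : ℕ → ℂ) (a : ℕ → ℕ → ℝ)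
    (S : ℕ → Finset ℕ),
    2 ≤ N → N ≤ N' → N' ≤ 2 * N → 1 / 2 ≤ κ → 0 ≤ R → (∀ n, ‖g n‖ ≤ 1) →
    (∀ n ∈ Finset.Ioc N N', Adm' D N κ (⌈5 * κ⌉₊ + 5) (S n) (a n)) →
    (∀ n ∈ Finset.Ioc N N', ∀ h : ℕ, (h : ℝ) ≤ (N : ℝ) ^ (4 / 5 : ℝ) →
      ‖g (n + h) - g n * ph (⌈5 * κ⌉₊ + 5) (a n) h‖ ≤
        R * ((N : ℝ) ^ κ * ((h : ℝ) / N) ^ (⌈5 * κ⌉₊ + 5 + 1))) →
    ‖∑ n ∈ Finset.Ioc N N', g n‖ ≤
      (Real.exp (C * (1 + κ) ^ C) + R) * (N : ℝ) ^ (1 - 1 / 10 ^ 10 / (1 + κ) ^ 2 : ℝ) := by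
  obtain ⟨C, hT⟩ := tn' D hD
  refine ⟨C + 3, fun N N' κ R g a S hN hNN hN2 hκ hR hg hadm happ => ?_⟩
  have hN1 : (1 : ℝ) ≤ N := by exact_mod_cast (by omega : 1 ≤ N)
  have hNp : (0 : ℝ) < N := by linarith
  obtain ⟨x, hx⟩ : ∃ x : ℝ, x = (N : ℝ) ^ (2 / 5 : ℝ) := ⟨_, rfl⟩
  have hx1 : 1 ≤ x := by
    rw [hx]
    exact Real.one_le_rpow hN1 (by norm_num)
  obtain ⟨M, hM⟩ : ∃ M : ℕ, M = ⌊(N : ℝ) ^ (2 / 5 : ℝ)⌋₊ := ⟨_, rfl⟩
  rw [← hx] at hM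
  have hM1 : 1 ≤ M := by
    rw [hM]
    exact Nat.le_floor (by simpa using hx1)
  have hM1' : (1 : ℝ) ≤ M := by exact_mod_cast hM1
  have hMx : (M : ℝ) ≤ x := by
    rw [hM]
    exact Nat.floor_le (by linarith)
  have hM2 : (M : ℝ) ^ 2 ≤ (N : ℝ) ^ (4 / 5 : ℝ) := by
    calc (M : ℝ) ^ 2 ≤ x ^ 2 := pow_le_pow_left₀ (by positivity) hMx 2
      _ = (N : ℝ) ^ (4 / 5 : ℝ) := by
        rw [hx, ← Real.rpow_natCast, ← Real.rpow_mul hNp.le]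
        norm_num
  obtain ⟨r, hr⟩ : ∃ r : ℕ, r = ⌈5 * κ⌉₊ + 5 := ⟨_, rfl⟩
  rw [← hr] at hadm happ
  have hr5 : 5 * κ + 5 ≤ (r : ℝ) := by
    rw [hr]
    push_cast
    linarith [Nat.le_ceil (5 * κ)]
  obtain ⟨η, hη⟩ : ∃ η : ℝ, η = 1 / 10 ^ 10 / (1 + κ) ^ 2 := ⟨_, rfl⟩
  obtain ⟨E, hE⟩ : ∃ E : ℝ, E = Real.exp (C * (1 + κ) ^ C) := ⟨_, rfl⟩
  have hE0 : 0 < E := by rw [hE]; exact Real.exp_pos _
  have hκ1 : 1 ≤ 1 + κ := by linarith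
  have hη1 : η ≤ 1 / 10 := by
    rw [hη]
    refine le_trans (div_le_self (by norm_num) ?_) (by norm_num)
    exact one_le_pow₀ hκ1
  -- the error of the approximation
  have h5 : (M : ℝ) ^ 2 / N ≤ (N : ℝ) ^ (-(1 / 5) : ℝ) := by
    rw [div_le_iff₀ hNp]
    refine hM2.trans (le_of_eq ?_)
    conv_rhs => rw [← Real.rpow_one (N : ℝ), ← Real.rpow_mul hNp.le, one_mul, ← Real.rpow_add hNp]
    norm_num
  have happ' : ∀ n ∈ Finset.Ioc N N', ∀ x ∈ Finset.Icc 1 M, ∀ y ∈ Finset.Icc 1 M,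
      ‖g (n + x * y) - g n * ph r (a n) ((x : ℝ) * y)‖ ≤ R * (N : ℝ) ^ (-(6 / 5) : ℝ) := by
    intro n hn x hx y hy
    have hx' : (x : ℝ) ≤ M := by exact_mod_cast (Finset.mem_Icc.1 hx).2
    have hy' : (y : ℝ) ≤ M := by exact_mod_cast (Finset.mem_Icc.1 hy).2
    have hxy : (x : ℝ) * y ≤ (M : ℝ) ^ 2 := by
      rw [sq]
      exact mul_le_mul hx' hy' (by positivity) (by positivity)
    have h1 := happ n hn (x * y) (by push_cast; exact hxy.trans hM2)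
    push_cast at h1
    refine h1.trans (mul_le_mul_of_nonneg_left ?_ hR)
    have h6 : ((x : ℝ) * y / N) ^ (r + 1) ≤ (N : ℝ) ^ (-(κ + 6 / 5)) := by
      calc ((x : ℝ) * y / N) ^ (r + 1) ≤ ((N : ℝ) ^ (-(1 / 5) : ℝ)) ^ (r + 1) := by
            refine pow_le_pow_left₀ (by positivity) (le_trans ?_ h5) _
            gcongr
        _ = (N : ℝ) ^ (-(1 / 5) * ((r : ℝ) + 1)) := by
          rw [← Real.rpow_natCast, ← Real.rpow_mul hNp.le]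
          push_cast
          ring_nf
        _ ≤ (N : ℝ) ^ (-(κ + 6 / 5)) :=
          Real.rpow_le_rpow_of_exponent_le hN1 (by linarith)
    calc (N : ℝ) ^ κ * ((x : ℝ) * y / N) ^ (r + 1) ≤ (N : ℝ) ^ κ * (N : ℝ) ^ (-(κ + 6 / 5)) := by
          gcongr
      _ = (N : ℝ) ^ (-(6 / 5) : ℝ) := by
          rw [← Real.rpow_add hNp]
          congr 1
          ring
  have hmain := shift g hg N N' M r a (R * (N : ℝ) ^ (-(6 / 5) : ℝ)) (by positivity) hNN hN2 hM1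
    happ'
  -- the first term
  have hTn : ∀ n ∈ Ioc N N', ‖TT r M (a n)‖ ≤ E * (M : ℝ) ^ 2 * (N : ℝ) ^ (-η) := by
    intro n hn
    have h3 := hT N κ (S n) (a n) hN hκ (by rw [← hr]; exact hadm n hn)
    rw [← hr, ← hx, ← hM, ← hE, ← hη] at h3
    exact h3
  have hsum : ∑ n ∈ Ioc N N', ‖TT r M (a n)‖ ≤
      (N : ℝ) * (E * (M : ℝ) ^ 2 * (N : ℝ) ^ (-η)) := by
    refine (Finset.sum_le_sum hTn).trans ?_
    rw [Finset.sum_const, Nat.card_Ioc, nsmul_eq_mul]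
    refine mul_le_mul_of_nonneg_right ?_ (by positivity)
    exact_mod_cast (by omega : N' - N ≤ N)
  have hpow : (N : ℝ) ^ (1 - η) = N * (N : ℝ) ^ (-η) := by
    rw [sub_eq_add_neg, Real.rpow_add hNp, Real.rpow_one]
  have t1 : 1 / (M : ℝ) ^ 2 * ∑ n ∈ Ioc N N', ‖TT r M (a n)‖ ≤ E * (N : ℝ) ^ (1 - η) := by
    calc 1 / (M : ℝ) ^ 2 * ∑ n ∈ Ioc N N', ‖TT r M (a n)‖
        ≤ 1 / (M : ℝ) ^ 2 * ((N : ℝ) * (E * (M : ℝ) ^ 2 * (N : ℝ) ^ (-η))) :=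
          mul_le_mul_of_nonneg_left hsum (by positivity)
      _ = E * (N : ℝ) ^ (1 - η) := by
        rw [hpow]
        field_simp
  -- the second term
  have t2 : 2 * (M : ℝ) ^ 2 ≤ 2 * (N : ℝ) ^ (1 - η) := by
    refine mul_le_mul_of_nonneg_left (hM2.trans ?_) (by norm_num)
    exact Real.rpow_le_rpow_of_exponent_le hN1 (by linarith)
  -- the third term
  have t3 : (N : ℝ) * (R * (N : ℝ) ^ (-(6 / 5) : ℝ)) ≤ R * (N : ℝ) ^ (1 - η) := by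
    have h6 : (N : ℝ) * (N : ℝ) ^ (-(6 / 5) : ℝ) ≤ (N : ℝ) ^ (1 - η) := by
      nth_rewrite 1 [← Real.rpow_one (N : ℝ)]
      rw [← Real.rpow_add hNp]
      exact Real.rpow_le_rpow_of_exponent_le hN1 (by linarith)
    calc (N : ℝ) * (R * (N : ℝ) ^ (-(6 / 5) : ℝ)) = R * ((N : ℝ) * (N : ℝ) ^ (-(6 / 5) : ℝ)) := by
          ring
      _ ≤ _ := by gcongr
  -- the constants
  have hC : E + 2 ≤ Real.exp (((C + 3 : ℕ) : ℝ) * (1 + κ) ^ (C + 3)) := by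
    have h7 : (1 + κ) ^ C ≤ (1 + κ) ^ (C + 3) := pow_le_pow_right₀ hκ1 (by omega)
    have h8 : 1 ≤ (1 + κ) ^ (C + 3) := one_le_pow₀ hκ1
    have h9 : (C : ℝ) * (1 + κ) ^ C + 3 ≤ ((C + 3 : ℕ) : ℝ) * (1 + κ) ^ (C + 3) := by
      push_cast
      have h10 := mul_le_mul_of_nonneg_left h7 (Nat.cast_nonneg C : (0 : ℝ) ≤ C)
      linarith
    refine le_trans ?_ (Real.exp_le_exp.2 h9)
    rw [Real.exp_add, ← hE]
    have h11 : (3 : ℝ) + 1 ≤ Real.exp 3 := Real.add_one_le_exp 3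
    have h12 : 1 ≤ E := by
      rw [hE]
      exact Real.one_le_exp (by positivity)
    nlinarith
  rw [← hη]
  calc ‖∑ n ∈ Ioc N N', g n‖
      ≤ E * (N : ℝ) ^ (1 - η) + 2 * (N : ℝ) ^ (1 - η) + R * (N : ℝ) ^ (1 - η) :=
        hmain.trans (add_le_add (add_le_add t1 t2) t3)
    _ = (E + 2 + R) * (N : ℝ) ^ (1 - η) := by ring
    _ ≤ _ := by
        refine mul_le_mul_of_nonneg_right ?_ (by positivity)
        linarith

end Pool.Agent.N704.GN
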