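import Mathlib
import Pool.Agent.N782.GN.StmV
import Pool.Agent.N704.GN.LineC

/-!
# Vinogradov's bound for the phases `k arg z - 2 τ log |z|` along a line

Project GN (helper782), task LINE (helper704).
-/

set_option autoImplicit false

namespace Pool.Agent.N704.GN

open Finset Pool.Agent.N782.GN

/-- `Psi` as `exp (i Re (c log ζ))` -/
lemma Psi_eq (k : ℤ) (τ : ℝ) (ζ : ℂ) :
    Psi k τ ζ = Complex.exp (Complex.I * (((cc k τ * Complex.log ζ).re : ℝ) : ℂ)) := by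
  unfold Psi cc
  congr 3
  rw [Complex.mul_re, Complex.log_re, Complex.log_im]
  simp
  ring

/-- `exp (i Re (c z))` depends on `exp z` only -/
lemma exp_eq_of {k : ℤ} {τ : ℝ} {z w : ℂ} (h : Complex.exp z = Complex.exp w) :
    Complex.exp (Complex.I * (((cc k τ * z).re : ℝ) : ℂ)) =
      Complex.exp (Complex.I * (((cc k τ * w).re : ℝ) : ℂ)) := by
  obtain ⟨n, hn⟩ := Complex.exp_eq_exp_iff_exists_int.1 h
  rw [Complex.exp_eq_exp_iff_exists_int]
  refine ⟨n * k, ?_⟩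
  rw [hn]
  have e : (cc k τ * (w + n * (2 * Real.pi * Complex.I))).re =
      (cc k τ * w).re + n * k * (2 * Real.pi) := by
    rw [mul_add, Complex.add_re]
    congr 1
    unfold cc
    simp [Complex.mul_re, Complex.mul_im]
    ring
  rw [e]
  push_cast
  ring

lemma Psi_mul (k : ℤ) (τ : ℝ) {ζ v : ℂ} (hζ : ζ ≠ 0) (hv : v ≠ 0) :
    Psi k τ (ζ * v) = Psi k τ ζ * Complex.exp (Complex.I * (((cc k τ * Complex.log v).re : ℝ) : ℂ)) := by
  rw [Psi_eq, Psi_eq, ← Complex.exp_add, ← mul_add, ← Complex.ofReal_add, ← Complex.add_re,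
    ← mul_add]
  apply exp_eq_of
  rw [Complex.exp_log (mul_ne_zero hζ hv), Complex.exp_add, Complex.exp_log hζ, Complex.exp_log hv]

lemma norm_Psi (k : ℤ) (τ : ℝ) (ζ : ℂ) : ‖Psi k τ ζ‖ = 1 := by
  unfold Psi
  rw [mul_comm]
  exact Complex.norm_exp_ofReal_mul_I _

/-- the coefficients -/
noncomputable def co (c ω ζ : ℂ) (j : ℕ) : ℝ :=
  (c * ((-1) ^ (j + 1) * (ω / ζ) ^ j / j)).re / (2 * Real.pi)

lemma ph_eq (r : ℕ) (c ω ζ : ℂ) (h : ℝ) : Pool.Agent.N586.RT.ph r (co c ω ζ) h =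
    Complex.exp (Complex.I * (((c * Complex.logTaylor (r + 1) ((h : ℂ) * ω / ζ)).re : ℝ) : ℂ)) := by
  unfold Pool.Agent.N586.RT.ph
  congr 1
  have hpi := Real.pi_ne_zero
  have e : (c * Complex.logTaylor (r + 1) ((h : ℂ) * ω / ζ)).re =
      2 * Real.pi * ∑ j ∈ Finset.Icc 1 r, co c ω ζ j * h ^ j := by
    unfold Complex.logTaylor
    rw [Finset.range_eq_Ico, Finset.sum_eq_sum_Ico_succ_bot (by omega)]
    simp only [Nat.cast_zero, div_zero, zero_add]
    rw [Finset.mul_sum, Complex.re_sum, Finset.mul_sum]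
    have e1 : Finset.Ico 1 (r + 1) = Finset.Icc 1 r := by
      ext j; simp only [Finset.mem_Ico, Finset.mem_Icc]; omega
    rw [e1]
    refine Finset.sum_congr rfl fun j _ => ?_
    unfold co
    have e2 : c * ((-1) ^ (j + 1) * ((h : ℂ) * ω / ζ) ^ j / j) =
        ((h ^ j : ℝ) : ℂ) * (c * ((-1) ^ (j + 1) * (ω / ζ) ^ j / j)) := by
      have e3 : ((h : ℂ) * ω / ζ) ^ j = (h : ℂ) ^ j * (ω / ζ) ^ j := by
        rw [mul_div_assoc, mul_pow]
      rw [e3]
      push_cast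
      ring
    rw [e2, Complex.re_ofReal_mul]
    field_simp
  rw [e]
  push_cast
  ring

lemma norm_exp_sub (x y : ℝ) :
    ‖Complex.exp (Complex.I * (x : ℂ)) - Complex.exp (Complex.I * (y : ℂ))‖ ≤ |x - y| := by
  have e : Complex.exp (Complex.I * (x : ℂ)) - Complex.exp (Complex.I * (y : ℂ)) =
      Complex.exp (Complex.I * (y : ℂ)) * (Complex.exp (Complex.I * ((x - y : ℝ) : ℂ)) - 1) := by
    rw [mul_sub, ← Complex.exp_add, mul_one]
    congr 2
    push_cast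
    ring
  rw [e, norm_mul, mul_comm Complex.I (y : ℂ), Complex.norm_exp_ofReal_mul_I, one_mul]
  have := Real.norm_exp_I_mul_ofReal_sub_one_le (x := x - y)
  rwa [Real.norm_eq_abs] at this

theorem line : S_LINE := by
  classical
  obtain ⟨C, hC⟩ := zs' 26 (by norm_num)
  refine ⟨C + 10, ?_⟩
  intro N κ k τ ω ζ J hN hκ hcc hω hJ hyp
  have hN2 : (2 : ℝ) ≤ N := by exact_mod_cast hN
  have hN1 : (1 : ℝ) ≤ N := by linarith
  have hN0 : (0 : ℝ) < N := by linarith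
  have hω0 : 0 < ‖ω‖ := by
    rw [norm_pos_iff]
    rcases hω with rfl | rfl | rfl
    · exact one_ne_zero
    · exact Complex.I_ne_zero
    · intro h
      have := congrArg Complex.re h
      simp at this
  have hωne : ω ≠ 0 := norm_pos_iff.1 hω0
  obtain ⟨c, hc⟩ : ∃ c : ℂ, c = cc k τ := ⟨_, rfl⟩
  obtain ⟨r, hr⟩ : ∃ r : ℕ, r = ⌈5 * κ⌉₊ + 5 := ⟨_, rfl⟩
  -- the points
  obtain ⟨z, hz⟩ : ∃ z : ℕ → ℂ, z = fun n => ζ + ((n - N - 1 : ℕ) : ℂ) * ω := ⟨_, rfl⟩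
  have hzb : ∀ n ∈ Ioc N (N + J), N * ‖ω‖ ≤ ‖z n‖ ∧ ‖z n‖ ≤ 2 * N * ‖ω‖ ∧
      κ / 16 ≤ ((Gj κ c ω (z n)).card : ℝ) := by
    intro n hn
    rw [mem_Ioc] at hn
    rw [hz, hc]
    exact hyp (n - N - 1) (by omega)
  have hzpos : ∀ n ∈ Ioc N (N + J), 0 < ‖z n‖ := fun n hn =>
    lt_of_lt_of_le (by positivity) (hzb n hn).1
  have hq1 : ∀ n ∈ Ioc N (N + J), ‖ω / z n‖ ≤ 1 / N := by
    intro n hn
    rw [norm_div, div_le_div_iff₀ (hzpos n hn) hN0]
    linarith [(hzb n hn).1]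
  have hq2 : ∀ n ∈ Ioc N (N + J), 1 / (2 * N) ≤ ‖ω / z n‖ := by
    intro n hn
    rw [norm_div, div_le_div_iff₀ (by positivity) (hzpos n hn)]
    linarith [(hzb n hn).2.1]
  have hcN : ‖c‖ = (N : ℝ) ^ κ := by rw [hc]; exact hcc
  have hNκ : 0 < (N : ℝ) ^ κ := by positivity
  have hpi := Real.pi_gt_three
  have hpi4 := Real.pi_lt_d2
  have hco : ∀ (n j : ℕ), 1 ≤ j → |co c ω (z n) j| = |(c * (ω / z n) ^ j).re| / (2 * Real.pi * j) := by
    intro n j hj
    have hj0 : (0 : ℝ) < j := by exact_mod_cast hj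
    unfold co
    have e : c * ((-1) ^ (j + 1) * (ω / z n) ^ j / j) =
        (((-1) ^ (j + 1) / j : ℝ) : ℂ) * (c * (ω / z n) ^ j) := by
      push_cast; ring
    rw [e, Complex.re_ofReal_mul, abs_div, abs_mul, abs_div, abs_pow, abs_neg, abs_one, one_pow,
      abs_of_pos hj0, abs_of_pos (by positivity : 0 < 2 * Real.pi)]
    field_simp
  have hadm : ∀ n ∈ Ioc N (N + J), Adm' 26 N κ (⌈5 * κ⌉₊ + 5) (Gj κ c ω (z n)) (co c ω (z n)) := by
    intro n hn
    have hmem : ∀ j ∈ Gj κ c ω (z n), (1 ≤ j ∧ j ≤ ⌈5 * κ⌉₊ + 5) ∧ 2 * κ ≤ (j : ℝ) ∧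
        (j : ℝ) ≤ 3 * κ + 1 / 2 ∧ 1 / 4 * ‖c * ω ^ j / z n ^ j‖ ≤ |(c * ω ^ j / z n ^ j).re| := by
      intro j hj
      unfold Gj at hj
      rw [mem_filter, mem_Icc] at hj
      exact hj
    refine ⟨fun j hj => ?_, (hzb n hn).2.2, fun j hj => ?_, fun j hj => ?_⟩
    · obtain ⟨h1, h2, h3, -⟩ := hmem j hj
      exact ⟨mem_Icc.2 h1, h2, h3⟩
    · obtain ⟨h1, -, -, -⟩ := hmem j hj
      have hj1 : (1 : ℝ) ≤ j := by exact_mod_cast h1.1
      rw [hco n j h1.1]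
      have h2 : |(c * (ω / z n) ^ j).re| ≤ (N : ℝ) ^ κ * (1 / N) ^ j := by
        refine (Complex.abs_re_le_norm _).trans ?_
        rw [norm_mul, norm_pow, hcN]
        exact mul_le_mul_of_nonneg_left (pow_le_pow_left₀ (norm_nonneg _) (hq1 n hn) j) hNκ.le
      calc |(c * (ω / z n) ^ j).re| / (2 * Real.pi * j) ≤ (N : ℝ) ^ κ * (1 / N) ^ j / 6 := by
            refine div_le_div₀ (by positivity) h2 (by norm_num) (by nlinarith)
        _ = (N : ℝ) ^ κ / (6 * (N : ℝ) ^ j) := by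
            rw [one_div, inv_pow]
            field_simp
    · obtain ⟨h1, -, -, h4⟩ := hmem j hj
      have hj1 : (1 : ℝ) ≤ j := by exact_mod_cast h1.1
      rw [hco n j h1.1]
      have e : c * ω ^ j / z n ^ j = c * (ω / z n) ^ j := by rw [div_pow, mul_div_assoc]
      rw [e, norm_mul, norm_pow, hcN] at h4
      have h5 : (1 / (2 * (N : ℝ))) ^ j ≤ ‖ω / z n‖ ^ j :=
        pow_le_pow_left₀ (by positivity) (hq2 n hn) j
      have h6 : 1 / 4 * ((N : ℝ) ^ κ * (1 / (2 * (N : ℝ))) ^ j) ≤ |(c * (ω / z n) ^ j).re| := by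
        refine le_trans ?_ h4
        gcongr
      rw [le_div_iff₀ (by positivity)]
      refine le_trans ?_ h6
      have e2 : (N : ℝ) ^ κ / (26 * (j : ℝ) ^ 2 * (2 * (N : ℝ)) ^ j) * (2 * Real.pi * j) =
          (N : ℝ) ^ κ * (1 / (2 * (N : ℝ))) ^ j * (2 * Real.pi / (26 * j)) := by
        rw [one_div, inv_pow]
        field_simp
      rw [e2]
      have h7 : 2 * Real.pi / (26 * j) ≤ 1 / 4 := by
        rw [div_le_div_iff₀ (by positivity) (by norm_num)]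
        nlinarith
      have h8 : 0 ≤ (N : ℝ) ^ κ * (1 / (2 * (N : ℝ))) ^ j := by positivity
      nlinarith
  have happ : ∀ n ∈ Ioc N (N + J), ∀ h : ℕ, (h : ℝ) ≤ (N : ℝ) ^ (4 / 5 : ℝ) →
      ‖Psi k τ (z (n + h)) - Psi k τ (z n) *
        Pool.Agent.N586.RT.ph (⌈5 * κ⌉₊ + 5) (co c ω (z n)) h‖ ≤
        10 * ((N : ℝ) ^ κ * ((h : ℝ) / N) ^ (⌈5 * κ⌉₊ + 5 + 1)) := by
    intro n hn h hh
    rw [← hr]
    have hzn : z n ≠ 0 := norm_pos_iff.1 (hzpos n hn)
    obtain ⟨u, hu⟩ : ∃ u : ℂ, u = (h : ℂ) * ω / z n := ⟨_, rfl⟩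
    have hu1 : ‖u‖ ≤ (h : ℝ) / N := by
      rw [hu, mul_div_assoc, norm_mul, Complex.norm_natCast]
      calc (h : ℝ) * ‖ω / z n‖ ≤ h * (1 / N) :=
            mul_le_mul_of_nonneg_left (hq1 n hn) (Nat.cast_nonneg _)
        _ = (h : ℝ) / N := by ring
    have hu2 : (h : ℝ) / N ≤ 9 / 10 := by
      rw [div_le_iff₀ hN0]
      refine hh.trans ?_
      have h1 : (N : ℝ) ^ (4 / 5 : ℝ) = N * (N : ℝ) ^ (-(1 / 5) : ℝ) := by
        nth_rewrite 2 [← Real.rpow_one (N : ℝ)]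
        rw [← Real.rpow_add hN0]
        norm_num
      have h2 : (N : ℝ) ^ (-(1 / 5) : ℝ) ≤ (2 : ℝ) ^ (-(1 / 5) : ℝ) :=
        Real.rpow_le_rpow_of_nonpos (by norm_num) hN2 (by norm_num)
      have h3 : (2 : ℝ) ^ (-(1 / 5) : ℝ) ≤ 9 / 10 := by
        have h4 : ((2 : ℝ) ^ (-(1 / 5) : ℝ)) ^ 5 = 1 / 2 := by
          rw [← Real.rpow_natCast, ← Real.rpow_mul (by norm_num)]
          norm_num
        by_contra hcon
        push Not at hcon
        have h5 : (9 / 10 : ℝ) ^ 5 < ((2 : ℝ) ^ (-(1 / 5) : ℝ)) ^ 5 :=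
          pow_lt_pow_left₀ hcon (by norm_num) (by norm_num)
        rw [h4] at h5
        norm_num at h5
      rw [h1]
      nlinarith
    have hu3 : ‖u‖ < 1 := by linarith
    have hu4 : (1 - ‖u‖)⁻¹ ≤ 10 := by
      rw [inv_le_comm₀ (by linarith) (by norm_num)]
      linarith
    have h1u : 1 + u ≠ 0 := by
      intro h0
      have : u = -1 := by linear_combination h0
      rw [this, norm_neg, norm_one] at hu3
      exact lt_irrefl _ hu3
    have ez : z (n + h) = z n * (1 + u) := by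
      have hn' := mem_Ioc.1 hn
      have e1 : ((n + h - N - 1 : ℕ) : ℂ) = ((n - N - 1 : ℕ) : ℂ) + h := by
        have : n + h - N - 1 = (n - N - 1) + h := by omega
        rw [this]
        push_cast
        ring
      have e2 : z n * (1 + u) = z n + h * ω := by
        rw [hu]
        field_simp
      rw [e2, hz]
      simp only
      rw [e1]
      ring
    rw [ez, Psi_mul k τ hzn h1u, ← mul_sub, norm_mul, norm_Psi, one_mul, ph_eq, ← hc]
    have hcast : (((h : ℕ) : ℝ) : ℂ) = (h : ℂ) := by push_cast; rfl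
    rw [hcast, ← hu]
    refine (norm_exp_sub _ _).trans ?_
    rw [← Complex.sub_re, ← mul_sub]
    refine (Complex.abs_re_le_norm _).trans ?_
    rw [norm_mul, hcN]
    have h5 := Complex.norm_log_sub_logTaylor_le r hu3
    have h6 : ‖u‖ ^ (r + 1) * (1 - ‖u‖)⁻¹ / (r + 1) ≤ 10 * ((h : ℝ) / N) ^ (r + 1) := by
      calc ‖u‖ ^ (r + 1) * (1 - ‖u‖)⁻¹ / (r + 1) ≤ ‖u‖ ^ (r + 1) * (1 - ‖u‖)⁻¹ := by
            refine div_le_self ?_ (by
              have : (0 : ℝ) ≤ r := Nat.cast_nonneg r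
              linarith)
            have : 0 ≤ (1 - ‖u‖)⁻¹ := inv_nonneg.2 (by linarith)
            positivity
        _ ≤ ((h : ℝ) / N) ^ (r + 1) * 10 := by
            refine mul_le_mul (pow_le_pow_left₀ (norm_nonneg _) hu1 _) hu4
              (inv_nonneg.2 (by linarith)) (by positivity)
        _ = _ := by ring
    calc (N : ℝ) ^ κ * ‖Complex.log (1 + u) - Complex.logTaylor (r + 1) u‖
        ≤ (N : ℝ) ^ κ * (10 * ((h : ℝ) / N) ^ (r + 1)) :=
          mul_le_mul_of_nonneg_left (h5.trans h6) hNκ.le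
      _ = _ := by ring
  have hmain := hC N (N + J) κ 10 (fun n => Psi k τ (z n)) (fun n => co c ω (z n))
    (fun n => Gj κ c ω (z n)) hN (by omega) (by omega) hκ (by norm_num)
    (fun n => (norm_Psi k τ _).le) hadm happ
  have esum : ∑ n ∈ range J, Psi k τ (ζ + n * ω) = ∑ n ∈ Ioc N (N + J), Psi k τ (z n) := by
    rw [Finset.range_eq_Ico]
    have e1 : Ioc N (N + J) = (Ico 0 J).map (addRightEmbedding (N + 1)) := by
      rw [Finset.map_add_right_Ico]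
      ext n
      simp only [mem_Ioc, mem_Ico]
      omega
    rw [e1, Finset.sum_map]
    refine Finset.sum_congr rfl fun n _ => ?_
    rw [hz]
    simp only [addRightEmbedding_apply]
    have : n + (N + 1) - N - 1 = n := by omega
    rw [this]
  rw [esum]
  refine hmain.trans ?_
  have hκ1 : 1 ≤ 1 + κ := by linarith
  have hconst : Real.exp (C * (1 + κ) ^ C) + 10 ≤
      Real.exp (((C + 10 : ℕ) : ℝ) * (1 + κ) ^ (C + 10)) := by
    have h7 : (1 + κ) ^ C ≤ (1 + κ) ^ (C + 10) := pow_le_pow_right₀ hκ1 (by omega)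
    have h8 : 1 ≤ (1 + κ) ^ (C + 10) := one_le_pow₀ hκ1
    have h9 : (C : ℝ) * (1 + κ) ^ C + 10 ≤ ((C + 10 : ℕ) : ℝ) * (1 + κ) ^ (C + 10) := by
      push_cast
      have h10 := mul_le_mul_of_nonneg_left h7 (Nat.cast_nonneg C : (0 : ℝ) ≤ C)
      linarith
    refine le_trans ?_ (Real.exp_le_exp.2 h9)
    rw [Real.exp_add]
    have h11 : (10 : ℝ) + 1 ≤ Real.exp 10 := Real.add_one_le_exp 10
    have h12 : 1 ≤ Real.exp (C * (1 + κ) ^ C) := Real.one_le_exp (by positivity)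
    nlinarith
  have hexp : (N : ℝ) ^ (1 - 1 / 10 ^ 10 / (1 + κ) ^ 2 : ℝ) ≤
      (N : ℝ) ^ (1 - 1 / 10 ^ 12 / (1 + κ) ^ 2 : ℝ) := by
    refine Real.rpow_le_rpow_of_exponent_le hN1 ?_
    have : (1 : ℝ) / 10 ^ 12 / (1 + κ) ^ 2 ≤ 1 / 10 ^ 10 / (1 + κ) ^ 2 := by
      gcongr <;> norm_num
    linarith
  exact mul_le_mul hconst hexp (by positivity) (by positivity)

end Pool.Agent.N704.GN
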